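import Mathlib
import Pool.Agent.H759R2.Kad.Props3

/-! Matrix units: a homomorphism of `M_L(B)` which preserves adjoints on the scalar matrices is an
amplification (helper488, task 26). -/

open scoped ComplexOrder InnerProductSpace ComplexConjugate
open Finset

noncomputable section

namespace H759R2.Kad

universe u v

namespace A26

variable {B : Type u} [CStarAlgebra B] [PartialOrder B] [StarOrderedRing B] {L : ℕ}

theorem tens_apply (s : Matrix (Fin L) (Fin L) ℂ) (a : B) (i j : Fin L) :
    tens s a i j = s i j • a := rfl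

theorem tens_mul (s t : Matrix (Fin L) (Fin L) ℂ) (a b : B) :
    tens s a * tens t b = tens (s * t) (a * b) := by
  ext i j
  rw [CStarMatrix.mul_apply, tens_apply, Matrix.mul_apply, Finset.sum_smul]
  refine Finset.sum_congr rfl fun k _ => ?_
  rw [tens_apply, tens_apply, smul_mul_smul_comm]

theorem tens_zero_left (a : B) : tens (0 : Matrix (Fin L) (Fin L) ℂ) a = 0 := by
  ext i j
  rw [tens_apply]
  simp

theorem tens_one : tens (1 : Matrix (Fin L) (Fin L) ℂ) (1 : B) = 1 := by
  ext i j
  rw [tens_apply, CStarMatrix.one_apply, Matrix.one_apply]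
  split_ifs <;> simp

theorem tens_add_right (s : Matrix (Fin L) (Fin L) ℂ) (a b : B) :
    tens s (a + b) = tens s a + tens s b := by
  ext i j
  simp [tens_apply]

theorem tens_smul_right (s : Matrix (Fin L) (Fin L) ℂ) (c : ℂ) (a : B) :
    tens s (c • a) = c • tens s a := by
  ext i j
  simp only [tens_apply, CStarMatrix.smul_apply]
  rw [smul_comm]

/-- the elementary matrices -/
def mu (i j : Fin L) (b : B) : CStarMatrix (Fin L) (Fin L) B := tens (Matrix.single i j (1 : ℂ)) b

theorem mu_mul_same (i j k : Fin L) (a b : B) : mu i j a * mu j k b = mu i k (a * b) := by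
  unfold mu
  rw [tens_mul, Matrix.single_mul_single_same, one_mul]

theorem mu_mul_ne (i j k l : Fin L) (h : j ≠ k) (a b : B) : mu i j a * mu k l b = 0 := by
  unfold mu
  rw [tens_mul]
  have h0 : Matrix.single i j (1 : ℂ) * Matrix.single k l (1 : ℂ) = 0 := by
    ext a' b'
    rw [Matrix.mul_apply, Matrix.zero_apply]
    refine Finset.sum_eq_zero fun t _ => ?_
    rw [Matrix.single_apply, Matrix.single_apply]
    by_cases ht : j = t
    · have : k ≠ t := fun hk => h (ht.trans hk.symm)
      simp [this]
    · simp [ht]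
  rw [h0, tens_zero_left]

theorem sum_mu : ∑ i : Fin L, mu i i (1 : B) = 1 := by
  rw [← tens_one]
  ext i j
  have : (∑ k : Fin L, mu k k (1 : B)) i j = ∑ k : Fin L, mu k k (1 : B) i j := by
    induction (Finset.univ : Finset (Fin L)) using Finset.induction_on with
    | empty => simp
    | insert a s ha ih => rw [Finset.sum_insert ha, Finset.sum_insert ha, CStarMatrix.add_apply, ih]
  rw [this]
  simp only [mu, tens_apply, ← Finset.sum_smul]
  congr 1
  rw [← Matrix.sum_single_one, Matrix.sum_apply]

theorem mul_mu (X : CStarMatrix (Fin L) (Fin L) B) (j o : Fin L) :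
    X * mu j o 1 = ∑ i, mu i o (X i j) := by
  ext i k
  have : (∑ i', mu i' o (X i' j)) i k = ∑ i', mu i' o (X i' j) i k := by
    induction (Finset.univ : Finset (Fin L)) using Finset.induction_on with
    | empty => simp
    | insert a s ha ih => rw [Finset.sum_insert ha, Finset.sum_insert ha, CStarMatrix.add_apply, ih]
  rw [this, CStarMatrix.mul_apply]
  simp only [mu, tens_apply, Matrix.single_apply]
  rw [Finset.sum_eq_single j, Finset.sum_eq_single i]
  · by_cases h : o = k
    · simp [h]
    · simp [h]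
  · intro b _ hb
    simp [hb]
  · intro h; exact absurd (Finset.mem_univ _) h
  · intro b _ hb
    simp [Ne.symm hb]
  · intro h; exact absurd (Finset.mem_univ _) h

end A26

open A26 in
theorem prove3_units : K_units.{u, v} := by
  intro B _ _ _ H _ _ _ L hL u hu hstar
  let o : Fin L := ⟨0, hL⟩
  -- matrix units
  let E : Fin L → Fin L → B → (H →L[ℂ] H) := fun i j b => u (mu i j b)
  have hEsame : ∀ i j k a b (x : H), E i j a (E j k b x) = E i k (a * b) x := by
    intro i j k a b x
    show (u (mu i j a) * u (mu j k b)) x = u (mu i k (a * b)) x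
    rw [← hu.mul, mu_mul_same]
  have hEne : ∀ i j k l, j ≠ k → ∀ a b (x : H), E i j a (E k l b x) = 0 := by
    intro i j k l h a b x
    show (u (mu i j a) * u (mu k l b)) x = 0
    rw [← hu.mul, mu_mul_ne _ _ _ _ h, map_zero]
    rfl
  have hEstar : ∀ i j (x y : H), ⟪E i j 1 x, y⟫_ℂ = ⟪x, E j i 1 y⟫_ℂ := by
    intro i j x y
    have h1 : star (E i j 1) = E j i 1 := by
      show star (u (mu i j 1)) = u (mu j i 1)
      unfold mu
      rw [hstar]
      congr 2
      rw [Matrix.star_eq_conjTranspose, Matrix.conjTranspose_single, star_one]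
    rw [← h1, ContinuousLinearMap.star_eq_adjoint, ContinuousLinearMap.adjoint_inner_right]
  have hEsum : ∀ x : H, ∑ i, E i i 1 x = x := by
    intro x
    have h1 : (∑ i, u (mu i i 1)) x = x := by
      rw [← map_sum, sum_mu, hu.one]
      rfl
    rw [_root_.sum_apply] at h1
    exact h1
  -- the subspace
  let K : Submodule ℂ H := LinearMap.ker ((E o o 1 - 1 : H →L[ℂ] H) : H →ₗ[ℂ] H)
  have hmem : ∀ x : H, x ∈ K ↔ E o o 1 x = x := by
    intro x
    show (E o o 1 - 1) x = 0 ↔ _
    rw [sub_apply, sub_eq_zero]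
    rfl
  have hclosed : IsClosed (K : Set H) := ContinuousLinearMap.isClosed_ker (E o o 1 - 1)
  have hcomplete : CompleteSpace K := hclosed.completeSpace_coe
  have hEK : ∀ j b (x : H), E o j b x ∈ K := by
    intro j b x
    rw [hmem, hEsame, one_mul]
  let w : B →ₗ[ℂ] (K →L[ℂ] K) :=
    { toFun := fun b => ((E o o b).comp K.subtypeL).codRestrict K (fun x => hEK o b x)
      map_add' := by
        intro a b
        ext x
        show u (mu o o (a + b)) x = u (mu o o a) x + u (mu o o b) x
        unfold mu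
        rw [tens_add_right, map_add]
        rfl
      map_smul' := by
        intro c a
        ext x
        show u (mu o o (c • a)) x = c • u (mu o o a) x
        unfold mu
        rw [tens_smul_right, map_smul]
        rfl }
  have hw : ∀ b (x : K), ((w b x : K) : H) = E o o b x := fun b x => rfl
  -- the unitary
  let V0 : HH (Fin L) K →ₗ[ℂ] H :=
    { toFun := fun ξ => ∑ i, E i o 1 (ξ i : H)
      map_add' := by
        intro ξ η
        simp only [PiLp.add_apply, Submodule.coe_add, map_add, Finset.sum_add_distrib]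
      map_smul' := by
        intro c ξ
        simp only [PiLp.smul_apply, Submodule.coe_smul, map_smul, Finset.smul_sum, RingHom.id_apply] }
  have hV0 : ∀ ξ : HH (Fin L) K, V0 ξ = ∑ i, E i o 1 (ξ i : H) := fun _ => rfl
  have hnorm : ∀ ξ : HH (Fin L) K, ‖V0 ξ‖ = ‖ξ‖ := by
    intro ξ
    have h1 : ⟪V0 ξ, V0 ξ⟫_ℂ = ⟪ξ, ξ⟫_ℂ := by
      rw [hV0, PiLp.inner_apply, sum_inner]
      refine Finset.sum_congr rfl fun i _ => ?_
      rw [inner_sum, Finset.sum_eq_single i]
      · rw [hEstar, hEsame, one_mul, (hmem _).1 (ξ i).2]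
        rfl
      · intro j _ hj
        rw [hEstar, hEne _ _ _ _ (Ne.symm hj), inner_zero_right]
      · intro h; exact absurd (Finset.mem_univ _) h
    have h2 : ‖V0 ξ‖ ^ 2 = ‖ξ‖ ^ 2 := by
      rw [inner_self_eq_norm_sq_to_K, inner_self_eq_norm_sq_to_K] at h1
      exact_mod_cast h1
    exact (pow_left_inj₀ (norm_nonneg _) (norm_nonneg _) two_ne_zero).1 h2
  let V1 : HH (Fin L) K →ₗᵢ[ℂ] H := ⟨V0, hnorm⟩
  have hsurj : Function.Surjective V1 := by
    intro η
    refine ⟨WithLp.toLp 2 (fun i => (⟨E o i 1 η, hEK i 1 η⟩ : K)), ?_⟩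
    show ∑ i, E i o 1 (E o i 1 η) = η
    simp only [hEsame, one_mul]
    exact hEsum η
  refine ⟨K, inferInstance, inferInstance, hcomplete, w, LinearIsometryEquiv.ofSurjective V1 hsurj,
    ⟨?_, ?_⟩, ?_⟩
  · intro a b
    ext x
    show E o o (a * b) x = E o o a (E o o b x)
    rw [hEsame]
  · ext x
    show E o o 1 x = x
    exact (hmem _).1 x.2
  · intro X ξ
    show u X (∑ j, E j o 1 (ξ j : H)) = ∑ i, E i o 1 ((amp w (Fin L) X ξ i : K) : H)
    have h1 : ∀ j, u X (E j o 1 (ξ j : H)) = ∑ i, E i o 1 (E o o (X i j) (ξ j : H)) := by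
      intro j
      have h2 : u X (E j o 1 (ξ j : H)) = u (X * mu j o 1) (ξ j : H) := by
        rw [hu.mul]; rfl
      rw [h2, mul_mu, map_sum, _root_.sum_apply]
      refine Finset.sum_congr rfl fun i _ => ?_
      rw [hEsame, one_mul]
    rw [map_sum, Finset.sum_congr rfl fun j _ => h1 j, Finset.sum_comm]
    refine Finset.sum_congr rfl fun i _ => ?_
    rw [amp_apply, ← map_sum]
    congr 1
    rw [AddSubmonoidClass.coe_finsetSum]
    rfl

end H759R2.Kad
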